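import Pool.Agent.H560Elem.Lower

namespace Pool.Agent.H560Elem

open Filter

theorem log_g_ge : (3 / 8 : ℝ) ≤ Real.log g := by
  have h1 := g_gt
  have h2 : 1 - g⁻¹ ≤ Real.log g := Real.one_sub_inv_le_log_of_pos (by linarith)
  have h3 : g⁻¹ ≤ (1.6 : ℝ)⁻¹ := by
    apply inv_anti₀ (by norm_num) h1.le
  have h4 : (1.6 : ℝ)⁻¹ = 5 / 8 := by norm_num
  linarith

theorem lower (ε : ℝ) (hε : 0 < ε) : ∃ c : ℝ, 0 < c ∧ ∃ n₀ : ℕ, ∀ n ≥ n₀,
    (((Finset.Ioo (Nat.fib n) (Nat.fib (n + 1))).filter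
      (fun k => (e k : ℝ) < n + c * n / Real.log n)).card : ℝ) ≤ (Nat.fib n : ℝ) ^ ε := by
  have hlit : ∀ᶠ n : ℕ in atTop, ‖Real.log (n : ℝ)‖ ≤ (ε / 1000) * ‖(n : ℝ)‖ := by
    have := (Real.isLittleO_log_id_atTop.comp_tendsto tendsto_natCast_atTop_atTop).bound
      (show 0 < ε / 1000 by positivity)
    simpa using this
  obtain ⟨n₁, hn₁⟩ := eventually_atTop.mp hlit
  set c : ℝ := min ε 1 / 320 with hc
  have hcpos : 0 < c := by
    have : 0 < min ε 1 := lt_min hε one_pos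
    positivity
  have hcε : c ≤ ε / 320 := by
    rw [hc]; gcongr; exact min_le_left _ _
  have hc1 : c ≤ 1 := by
    have : min ε 1 ≤ 1 := min_le_right _ _
    rw [hc]; linarith
  refine ⟨c, hcpos, max n₁ 16, ?_⟩
  intro n hn
  have hn16 : 16 ≤ n := le_trans (le_max_right _ _) hn
  have hlog := hn₁ n (le_trans (le_max_left _ _) hn)
  have hnR : (16 : ℝ) ≤ n := by exact_mod_cast hn16
  have hn0 : (0 : ℝ) < n := by linarith
  have hlog1 : 1 ≤ Real.log n := by
    rw [Real.le_log_iff_exp_le hn0]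
    have := Real.exp_one_lt_d9
    linarith
  have hlogpos : 0 < Real.log n := by linarith
  have hlog' : Real.log n ≤ ε / 1000 * n := by
    rw [Real.norm_of_nonneg hlogpos.le, Real.norm_of_nonneg hn0.le] at hlog
    exact hlog
  set K := (Finset.Ioo (Nat.fib n) (Nat.fib (n + 1))).filter
      (fun k => (e k : ℝ) < n + c * n / Real.log n) with hK
  set y : ℝ := c * n / Real.log n with hy
  have hy0 : 0 ≤ y := by positivity
  have hyn : y ≤ n := by
    rw [hy, div_le_iff₀ hlogpos]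
    nlinarith
  set s : ℕ := ⌊8 * y⌋₊ + 18 with hs
  have hfib4 : 3 ≤ Nat.fib n := by
    have : Nat.fib 4 ≤ Nat.fib n := Nat.fib_mono (by omega)
    have h3 : Nat.fib 4 = 3 := rfl
    omega
  have hcount : K.card ≤ (2 * n + 1) * ((2 * n) ^ 3) ^ s := by
    apply count K (2 * n) s (by omega)
    intro k hk
    rw [hK, Finset.mem_filter, Finset.mem_Ioo] at hk
    obtain ⟨⟨hk1, hk2⟩, hk3⟩ := hk
    obtain ⟨M, hM, hM3, v, hv, hvk⟩ := chain_of_e k (by omega)
    have hM4 : 4 ≤ M := by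
      by_contra hcon
      have : M = 3 := by omega
      subst this
      have := hv.le_add (i := 0) (by omega)
      have h0 := hv.v0
      have h1 := hv.v1
      simp only [zero_add] at this
      have hvk' : v 2 = k := hvk
      omega
    have hMR : (M : ℝ) < n + y := lt_of_le_of_lt (by exact_mod_cast hM) hk3
    refine ⟨M, ?_, hM3, v, hv, hvk, ?_⟩
    · have : (M : ℝ) < ((2 * n : ℕ) : ℝ) := by push_cast; linarith
      exact (by exact_mod_cast this : M < 2 * n).le
    · have h1 := card_D2_le M v hM4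
      have h2 := hv.cnt_bound hM4 n (by omega) (by rw [hvk]; omega)
      rcases Nat.lt_or_ge (D2 M v).card 18 with h18 | h18
      · omega
      · have h3 : (((D2 M v).card - 18 : ℕ) : ℝ) ≤ 8 * y := by
          rw [Nat.cast_sub h18]
          have h4 : (D2 M v).card + 8 * n ≤ 8 * M + 18 := by omega
          have h5 : ((D2 M v).card : ℝ) + 8 * n ≤ 8 * M + 18 := by exact_mod_cast h4
          push_cast
          linarith
        have h6 := Nat.le_floor h3
        omega
  -- final estimate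
  have hbig : (K.card : ℝ) ≤ (n : ℝ) ^ (2 + 4 * s) := by
    have a1 : 2 * n + 1 ≤ n ^ 2 := by nlinarith
    have a2 : (2 * n) ^ 3 ≤ n ^ 4 := by
      calc (2 * n) ^ 3 = 8 * n ^ 3 := by ring
        _ ≤ n * n ^ 3 := by gcongr; omega
        _ = n ^ 4 := by ring
    have a3 : K.card ≤ n ^ (2 + 4 * s) := by
      calc K.card ≤ _ := hcount
        _ ≤ n ^ 2 * (n ^ 4) ^ s := by gcongr
        _ = n ^ (2 + 4 * s) := by rw [← pow_mul, ← pow_add]
    exact_mod_cast a3
  have hfib : g ^ (n - 2) ≤ (Nat.fib n : ℝ) := by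
    have := g_pow_le_fib (n - 2)
    rwa [show n - 2 + 2 = n by omega] at this
  have hg1 := g_gt
  have hgpos : 0 < g := by linarith
  have hexp1 : (n : ℝ) ^ (2 + 4 * s) = Real.exp (((2 + 4 * s : ℕ) : ℝ) * Real.log n) := by
    rw [mul_comm (((2 + 4 * s : ℕ) : ℝ)) (Real.log n), Real.exp_mul, Real.exp_log hn0,
      Real.rpow_natCast]
  have hexp2 : Real.exp (ε * (((n - 2 : ℕ) : ℝ) * Real.log g)) ≤ (Nat.fib n : ℝ) ^ ε := by
    have b1 : Real.exp (ε * (((n - 2 : ℕ) : ℝ) * Real.log g)) = (g ^ (n - 2)) ^ ε := by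
      rw [mul_comm ε, Real.exp_mul, mul_comm (((n - 2 : ℕ) : ℝ)), Real.exp_mul, Real.exp_log hgpos,
        Real.rpow_natCast]
    rw [b1]
    exact Real.rpow_le_rpow (by positivity) hfib hε.le
  refine hbig.trans (le_trans ?_ hexp2)
  rw [hexp1]
  apply Real.exp_le_exp.mpr
  have hsR : (s : ℝ) ≤ 8 * y + 18 := by
    rw [hs]
    push_cast
    have := Nat.floor_le (show 0 ≤ 8 * y by positivity)
    linarith
  have hyl : y * Real.log n = c * n := by
    rw [hy]; field_simp
  have h1 : ((2 + 4 * s : ℕ) : ℝ) * Real.log n ≤ 74 * Real.log n + 32 * (c * n) := by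
    push_cast
    calc (2 + 4 * (s : ℝ)) * Real.log n ≤ (2 + 4 * (8 * y + 18)) * Real.log n := by gcongr
      _ = 74 * Real.log n + 32 * (y * Real.log n) := by ring
      _ = _ := by rw [hyl]
  have h2 : 74 * Real.log n + 32 * (c * n) ≤ ε * (n / 4) := by
    have : c * n ≤ ε / 320 * n := by gcongr
    nlinarith
  have h3 : (n : ℝ) / 4 ≤ ((n - 2 : ℕ) : ℝ) * Real.log g := by
    have h4 : ((n - 2 : ℕ) : ℝ) = n - 2 := by
      rw [Nat.cast_sub (by omega)]; norm_num
    have h5 := log_g_ge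
    rw [h4]
    have : ((n : ℝ) - 2) * (3 / 8) ≤ ((n : ℝ) - 2) * Real.log g := by
      apply mul_le_mul_of_nonneg_left h5; linarith
    linarith
  calc _ ≤ _ := h1
    _ ≤ _ := h2
    _ ≤ _ := mul_le_mul_of_nonneg_left h3 hε.le

end Pool.Agent.H560Elem
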