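import Pool.Agent.H560Elem.Upper

namespace Pool.Agent.H560Elem

/-- a chain of length `M` -/
structure Chain (M : ℕ) (v : ℕ → ℕ) : Prop where
  v0 : v 0 = 1
  v1 : v 1 = 1
  mono : ∀ i j, i ≤ j → j < M → v i ≤ v j
  step : ∀ i, 2 ≤ i → i < M → v i = 1 ∨ ∃ j k, j < k ∧ k < i ∧ v i = v j + v k

theorem chain_of_e (k : ℕ) (hk : 2 ≤ k) :
    ∃ M, M ≤ e k ∧ 3 ≤ M ∧ ∃ v, Chain M v ∧ v (M - 1) = k := by
  have hmem : ∃ x : Fin (e k) → ℕ, IsElementary (e k) x ∧ ∃ i, x i = k :=
    Nat.sInf_mem (set_nonempty k (by omega))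
  generalize e k = n at hmem
  obtain ⟨x, hx, i0, hi0⟩ := hmem
  have h2 := hx.two_le
  set v : ℕ → ℕ := fun j => if h : j < n then x ⟨j, h⟩ else 0 with hv
  have hv0 : v 0 = 1 := by
    simp only [hv]
    rw [dif_pos (by omega)]
    exact hx.start _ (by simp)
  have hv1 : v 1 = 1 := by
    simp only [hv]
    rw [dif_pos (by omega)]
    exact hx.start _ (by simp)
  have hvi : v i0 = k := by
    simp only [hv]
    rw [dif_pos i0.2]
    exact hi0
  have hi2 : 2 ≤ (i0 : ℕ) := by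
    by_contra hlt
    have : (i0 : ℕ) = 0 ∨ (i0 : ℕ) = 1 := by omega
    rcases this with h | h
    · rw [h] at hvi; omega
    · rw [h] at hvi; omega
  refine ⟨i0 + 1, i0.2, by omega, v, ⟨hv0, hv1, ?_, ?_⟩, by simpa using hvi⟩
  · intro i j hij hj
    have hjn : j < n := lt_of_lt_of_le hj i0.2
    simp only [hv]
    rw [dif_pos (by omega), dif_pos hjn]
    exact hx.mono (by simpa using hij)
  · intro i hi2 hi
    have hin : i < n := lt_of_lt_of_le hi i0.2
    have hpos := hx.pos ⟨i, hin⟩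
    rcases Nat.eq_or_lt_of_le (show 1 ≤ x ⟨i, hin⟩ from hpos) with h1 | h1
    · left
      simp only [hv]
      rw [dif_pos hin]
      exact h1.symm
    · right
      obtain ⟨j, l, hjl, hs⟩ := hx.sum _ h1
      have hj : (j : ℕ) < i := by
        by_contra hge
        have := hx.mono (show (⟨i, hin⟩ : Fin n) ≤ j from by
          rw [Fin.le_def]; simpa using hge)
        have := hx.pos l
        omega
      have hl : (l : ℕ) < i := by
        by_contra hge
        have := hx.mono (show (⟨i, hin⟩ : Fin n) ≤ l from by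
          rw [Fin.le_def]; simpa using hge)
        have := hx.pos j
        omega
      have hjl' : (j : ℕ) ≠ l := fun h => hjl (Fin.ext h)
      have e1 : v i = x ⟨i, hin⟩ := by simp only [hv]; rw [dif_pos hin]
      have e2 : v j = x j := by simp only [hv]; rw [dif_pos j.2]
      have e3 : v l = x l := by simp only [hv]; rw [dif_pos l.2]
      rcases lt_or_gt_of_ne hjl' with h | h
      · exact ⟨j, l, h, hl, by rw [e1, e2, e3, hs]⟩
      · exact ⟨l, j, h, hj, by rw [e1, e2, e3, hs, add_comm]⟩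

section facts

variable {M : ℕ} {v : ℕ → ℕ} (h : Chain M v)
include h

theorem Chain.pos {i : ℕ} (hi : i < M) : 1 ≤ v i := by
  have := h.mono 0 i (by omega) hi
  rw [h.v0] at this
  exact this

theorem Chain.le_add {i : ℕ} (hi : i + 2 < M) : v (i + 2) ≤ v (i + 1) + v i := by
  have h1 := h.pos (show i < M by omega)
  rcases h.step (i + 2) (by omega) hi with h2 | ⟨j, k, hjk, hk, hs⟩
  · omega
  · have a := h.mono k (i + 1) (by omega) (by omega)
    have b := h.mono j i (by omega) (by omega)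
    omega

theorem Chain.le_two_mul {i : ℕ} (hi : i + 1 < M) : v (i + 1) ≤ 2 * v i := by
  rcases Nat.eq_zero_or_pos i with h0 | h0
  · subst h0
    rw [h.v0]
    have := h.v1
    simp [this]
  · obtain ⟨m, rfl⟩ : ∃ m, i = m + 1 := ⟨i - 1, by omega⟩
    have h1 := h.le_add (i := m) (by omega)
    have h2 := h.mono m (m + 1) (by omega) (by omega)
    have : m + 1 + 1 = m + 2 := rfl
    rw [this]
    omega

theorem Chain.nonfib {i : ℕ} (hi : i + 4 < M) (hne : v (i + 4) ≠ v (i + 3) + v (i + 2)) :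
    v (i + 4) ≤ v (i + 3) + v (i + 1) := by
  have h1 := h.pos (show i + 1 < M by omega)
  rcases h.step (i + 4) (by omega) hi with h2 | ⟨j, k, hjk, hk, hs⟩
  · omega
  · have c23 := h.mono (i + 2) (i + 3) (by omega) (by omega)
    rcases Nat.lt_or_ge k (i + 3) with hk3 | hk3
    · have a := h.mono k (i + 2) (by omega) (by omega)
      have b := h.mono j (i + 1) (by omega) (by omega)
      omega
    · have hk' : k = i + 3 := by omega
      subst hk'
      rcases Nat.lt_or_ge j (i + 2) with hj2 | hj2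
      · have b := h.mono j (i + 1) (by omega) (by omega)
        omega
      · have hj' : j = i + 2 := by omega
        subst hj'
        exact absurd (by omega) hne

end facts

/-- golden ratio -/
noncomputable def g : ℝ := Real.goldenRatio

theorem g_sq : g * g = g + 1 := by
  have := Real.goldenRatio_sq
  unfold g
  nlinarith

theorem g_gt : (1.6 : ℝ) < g := by
  have h1 := g_sq
  have h2 : 0 < g := Real.goldenRatio_pos
  nlinarith

theorem g_lt : g < (1.62 : ℝ) := by
  have h1 := g_sq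
  have h2 : 0 < g := Real.goldenRatio_pos
  nlinarith

/-- potential -/
noncomputable def Pt (v : ℕ → ℕ) (i : ℕ) : ℝ :=
  g * v (i + 3) + v (i + 2) + g * v (i + 1) + v i

theorem Chain.pt_le {M : ℕ} {v : ℕ → ℕ} (h : Chain M v) {i : ℕ} (hi : i + 4 < M) :
    Pt v (i + 1) ≤ g * Pt v i := by
  have hg := g_sq
  have hg1 := g_gt
  have a1 : (v (i + 4) : ℝ) ≤ v (i + 3) + v (i + 2) := by
    exact_mod_cast h.le_add (i := i + 2) (by omega)
  have a2 : (v (i + 2) : ℝ) ≤ v (i + 1) + v i := by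
    exact_mod_cast h.le_add (i := i) (by omega)
  have e1 : g * Pt v i = (g + 1) * v (i + 3) + g * v (i + 2) + (g + 1) * v (i + 1) + g * v i := by
    unfold Pt
    calc g * (g * v (i + 3) + v (i + 2) + g * v (i + 1) + v i)
        = (g * g) * v (i + 3) + g * v (i + 2) + (g * g) * v (i + 1) + g * v i := by ring
      _ = _ := by rw [hg]
  have e2 : Pt v (i + 1) = g * v (i + 4) + v (i + 3) + g * v (i + 2) + v (i + 1) := rfl
  rw [e1, e2]
  have b1 : g * (v (i + 4) : ℝ) ≤ g * (v (i + 3) + v (i + 2)) := by gcongr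
  have b2 : g * (v (i + 2) : ℝ) ≤ g * (v (i + 1) + v i) := by gcongr
  nlinarith

theorem Chain.pt_le' {M : ℕ} {v : ℕ → ℕ} (h : Chain M v) {i : ℕ} (hi : i + 4 < M)
    (hne : v (i + 4) ≠ v (i + 3) + v (i + 2)) :
    Pt v (i + 1) ≤ g * (15 / 16) * Pt v i := by
  have hg := g_sq
  have hg1 := g_gt
  have hg2 := g_lt
  have a1 : (v (i + 4) : ℝ) ≤ v (i + 3) + v (i + 1) := by
    exact_mod_cast h.nonfib hi hne
  have a2 : (v (i + 2) : ℝ) ≤ v (i + 1) + v i := by
    exact_mod_cast h.le_add (i := i) (by omega)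
  have a3 : (v (i + 3) : ℝ) ≤ v (i + 2) + v (i + 1) := by
    exact_mod_cast h.le_add (i := i + 1) (by omega)
  have a4 : (v (i + 1) : ℝ) ≤ 2 * v i := by
    exact_mod_cast h.le_two_mul (i := i) (by omega)
  have a5 : (0 : ℝ) ≤ v i := Nat.cast_nonneg _
  have a6 : (v (i + 2) : ℝ) ≤ 3 * v i := by linarith
  have a7 : (v (i + 3) : ℝ) ≤ 5 * v i := by linarith
  have e1 : g * Pt v i = (g + 1) * v (i + 3) + g * v (i + 2) + (g + 1) * v (i + 1) + g * v i := by
    unfold Pt
    calc g * (g * v (i + 3) + v (i + 2) + g * v (i + 1) + v i)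
        = (g * g) * v (i + 3) + g * v (i + 2) + (g * g) * v (i + 1) + g * v i := by ring
      _ = _ := by rw [hg]
  have e2 : Pt v (i + 1) = g * v (i + 4) + v (i + 3) + g * v (i + 2) + v (i + 1) := rfl
  have b1 : g * (v (i + 4) : ℝ) ≤ g * (v (i + 3) + v (i + 1)) := by gcongr
  have c1 : Pt v (i + 1) ≤ g * Pt v i - g * v i := by
    rw [e1, e2]
    nlinarith
  have c2 : Pt v i ≤ 16 * v i := by
    unfold Pt
    have d1 : g * (v (i + 3) : ℝ) ≤ 1.62 * (5 * v i) := by gcongr
    have d2 : g * (v (i + 1) : ℝ) ≤ 1.62 * (2 * v i) := by gcongr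
    linarith
  have c3 : g * Pt v i ≤ g * (16 * v i) := by gcongr
  nlinarith

/-- number of non-Fibonacci steps among the first ones -/
def cnt (v : ℕ → ℕ) (m : ℕ) : ℕ :=
  ((Finset.range m).filter (fun i => v (i + 4) ≠ v (i + 3) + v (i + 2))).card

theorem Chain.pt_bound {M : ℕ} {v : ℕ → ℕ} (h : Chain M v) (m : ℕ) (hm : m + 3 < M) :
    Pt v m ≤ g ^ m * (15 / 16) ^ (cnt v m) * Pt v 0 := by
  have hg1 := g_gt
  induction m with
  | zero => simp [cnt]
  | succ m ih =>
    have ih' := ih (by omega)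
    by_cases hne : v (m + 4) ≠ v (m + 3) + v (m + 2)
    · have hc : cnt v (m + 1) = cnt v m + 1 := by
        unfold cnt
        rw [Finset.range_add_one, Finset.filter_insert, if_pos hne, Finset.card_insert_of_notMem]
        simp
      calc Pt v (m + 1) ≤ g * (15 / 16) * Pt v m := h.pt_le' (by omega) hne
        _ ≤ g * (15 / 16) * (g ^ m * (15 / 16) ^ (cnt v m) * Pt v 0) := by gcongr
        _ = g ^ (m + 1) * (15 / 16) ^ (cnt v (m + 1)) * Pt v 0 := by rw [hc]; ring
    · have hc : cnt v (m + 1) = cnt v m := by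
        unfold cnt
        rw [Finset.range_add_one, Finset.filter_insert, if_neg hne]
      calc Pt v (m + 1) ≤ g * Pt v m := h.pt_le (by omega)
        _ ≤ g * (g ^ m * (15 / 16) ^ (cnt v m) * Pt v 0) := by gcongr
        _ = g ^ (m + 1) * (15 / 16) ^ (cnt v (m + 1)) * Pt v 0 := by rw [hc]; ring

theorem g_pow_le_fib (n : ℕ) : g ^ n ≤ Nat.fib (n + 2) := by
  have hg1 := g_gt
  have hg2 := g_lt
  induction n using Nat.strong_induction_on with
  | _ n ih =>
    match n with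
    | 0 => simp
    | 1 =>
      have : Nat.fib 3 = 2 := rfl
      simp only [pow_one]
      rw [show 1 + 2 = 3 from rfl, this]
      push_cast
      linarith
    | n + 2 =>
      have h1 := ih n (by omega)
      have h2 := ih (n + 1) (by omega)
      have h3 : Nat.fib (n + 2 + 2) = Nat.fib (n + 2) + Nat.fib (n + 1 + 2) := Nat.fib_add_two
      rw [h3]
      push_cast
      calc g ^ (n + 2) = g ^ n * (g * g) := by ring
        _ = g ^ n + g ^ (n + 1) := by rw [g_sq]; ring
        _ ≤ _ := by gcongr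

theorem Chain.cnt_bound {M : ℕ} {v : ℕ → ℕ} (h : Chain M v) (hM : 4 ≤ M) (n : ℕ) (hn : 2 ≤ n)
    (hk : Nat.fib n ≤ v (M - 1)) : cnt v (M - 4) + 8 * n ≤ 8 * M + 16 := by
  have hg := g_sq
  have hg1 := g_gt
  have hg2 := g_lt
  obtain ⟨m, rfl⟩ : ∃ m, M = m + 4 := ⟨M - 4, by omega⟩
  obtain ⟨n, rfl⟩ : ∃ n', n = n' + 2 := ⟨n - 2, by omega⟩
  have h1 := h.pt_bound m (by omega)
  have e1 : m + 4 - 4 = m := by omega
  have e2 : m + 4 - 1 = m + 3 := by omega
  rw [e1]
  rw [e2] at hk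
  have h2 : g * g ^ n ≤ Pt v m := by
    have a : g ^ n ≤ (v (m + 3) : ℝ) := (g_pow_le_fib n).trans (by exact_mod_cast hk)
    have b : g * g ^ n ≤ g * (v (m + 3) : ℝ) := by gcongr
    have c : g * (v (m + 3) : ℝ) ≤ Pt v m := by
      unfold Pt
      have : 0 ≤ g * (v (m + 1) : ℝ) := by positivity
      have : (0 : ℝ) ≤ v (m + 2) := Nat.cast_nonneg _
      have : (0 : ℝ) ≤ v m := Nat.cast_nonneg _
      linarith
    linarith
  have h3 : Pt v 0 ≤ g ^ 5 := by
    have a0 : (v 0 : ℝ) = 1 := by exact_mod_cast h.v0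
    have a1 : (v 1 : ℝ) = 1 := by exact_mod_cast h.v1
    have a2 : (v 2 : ℝ) ≤ 2 := by
      have := h.le_add (i := 0) (by omega)
      have e : (v 2 : ℝ) ≤ v 1 + v 0 := by exact_mod_cast this
      linarith
    have a3 : (v 3 : ℝ) ≤ 3 := by
      have := h.le_add (i := 1) (by omega)
      have e : (v 3 : ℝ) ≤ v 2 + v 1 := by exact_mod_cast this
      linarith
    have a4 : g ^ 5 = 5 * g + 3 := by
      have : g ^ 5 = (g * g) * (g * g) * g := by ring
      rw [this, hg]
      have : (g + 1) * (g + 1) * g = (g * g) * g + 2 * (g * g) + g := by ring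
      rw [this, hg]
      have : (g + 1) * g = g * g + g := by ring
      rw [this, hg]
      ring
    rw [a4]
    unfold Pt
    simp only [zero_add]
    rw [a0, a1]
    have : g * (v 3 : ℝ) ≤ g * 3 := by gcongr
    linarith
  set c := cnt v m with hc
  have h4 : g * g ^ n ≤ g ^ m * (15 / 16) ^ c * g ^ 5 := by
    calc g * g ^ n ≤ Pt v m := h2
      _ ≤ _ := h1
      _ ≤ _ := by gcongr
  have h5 : g * g ^ n * (16 / 15) ^ c ≤ g ^ (m + 5) := by
    calc g * g ^ n * (16 / 15 : ℝ) ^ c ≤ g ^ m * (15 / 16) ^ c * g ^ 5 * (16 / 15) ^ c := by gcongr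
      _ = g ^ (m + 5) * ((15 / 16) * (16 / 15)) ^ c := by rw [mul_pow]; ring
      _ = g ^ (m + 5) := by norm_num
  have h6 : g ≤ (16 / 15 : ℝ) ^ 8 := by
    have : (1.62 : ℝ) ≤ (16 / 15 : ℝ) ^ 8 := by norm_num
    linarith
  have h7 : g ^ (8 * (n + 1) + c) ≤ g ^ (8 * (m + 5)) := by
    calc g ^ (8 * (n + 1) + c) = (g * g ^ n) ^ 8 * g ^ c := by ring
      _ ≤ (g * g ^ n) ^ 8 * ((16 / 15 : ℝ) ^ 8) ^ c := by gcongr
      _ = (g * g ^ n * (16 / 15 : ℝ) ^ c) ^ 8 := by
          generalize (16 / 15 : ℝ) = q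
          ring
      _ ≤ (g ^ (m + 5)) ^ 8 := by gcongr
      _ = g ^ (8 * (m + 5)) := by ring
  have h8 : 8 * (n + 1) + c ≤ 8 * (m + 5) := by
    have hg1' : 1 < g := by linarith
    exact (pow_le_pow_iff_right₀ hg1').mp h7
  omega

/-- the set of non-Fibonacci steps -/
def D2 (M : ℕ) (v : ℕ → ℕ) : Finset ℕ :=
  (Finset.range M).filter (fun i => 2 ≤ i ∧ v i ≠ v (i - 1) + v (i - 2))

theorem card_D2_le (M : ℕ) (v : ℕ → ℕ) (hM : 4 ≤ M) : (D2 M v).card ≤ cnt v (M - 4) + 2 := by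
  classical
  have hsub : D2 M v ⊆ {2, 3} ∪ (((Finset.range (M - 4)).filter
      (fun i => v (i + 4) ≠ v (i + 3) + v (i + 2))).image (fun i => i + 4)) := by
    intro i hi
    simp only [D2, Finset.mem_filter, Finset.mem_range] at hi
    simp only [Finset.mem_union, Finset.mem_insert, Finset.mem_singleton, Finset.mem_image,
      Finset.mem_filter, Finset.mem_range]
    rcases Nat.lt_or_ge i 4 with h | h
    · left; omega
    · right
      refine ⟨i - 4, ⟨by omega, ?_⟩, by omega⟩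
      have e1 : i - 4 + 4 = i := by omega
      have e2 : i - 4 + 3 = i - 1 := by omega
      have e3 : i - 4 + 2 = i - 2 := by omega
      rw [e1, e2, e3]
      exact hi.2.2
  calc (D2 M v).card ≤ _ := Finset.card_le_card hsub
    _ ≤ ({2, 3} : Finset ℕ).card + _ := Finset.card_union_le _ _
    _ ≤ 2 + cnt v (M - 4) := by
        gcongr
        · exact Finset.card_le_two
        · exact Finset.card_image_le
    _ = _ := by ring

/-- a code for a chain -/
def Code (M : ℕ) (v : ℕ → ℕ) (s : ℕ) (w : Fin s → ℕ × ℕ × ℕ) : Prop :=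
  (∀ i, 2 ≤ i → i < M → v i ≠ v (i - 1) + v (i - 2) → ∃ t, (w t).1 = i) ∧
  (∀ t, (w t).1 = 0 ∨ (2 ≤ (w t).1 ∧ (w t).1 < M ∧ (w t).2.1 < (w t).1 ∧ (w t).2.2 < (w t).1 ∧
    (((w t).2.1 = (w t).2.2 ∧ v (w t).1 = 1) ∨
      ((w t).2.1 ≠ (w t).2.2 ∧ v (w t).1 = v (w t).2.1 + v (w t).2.2))))

theorem Code.unique {M : ℕ} {v v' : ℕ → ℕ} {s : ℕ} {w : Fin s → ℕ × ℕ × ℕ}
    (h0 : v 0 = 1) (h1 : v 1 = 1) (h0' : v' 0 = 1) (h1' : v' 1 = 1)
    (hc : Code M v s w) (hc' : Code M v' s w) : ∀ i < M, v i = v' i := by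
  intro i
  induction i using Nat.strong_induction_on with
  | _ i ih =>
    intro hi
    rcases Nat.lt_or_ge i 2 with hlt | hge
    · have : i = 0 ∨ i = 1 := by omega
      rcases this with rfl | rfl
      · rw [h0, h0']
      · rw [h1, h1']
    · by_cases ht : ∃ t, (w t).1 = i
      · obtain ⟨t, ht⟩ := ht
        rcases hc.2 t with a | ⟨_, _, a3, a4, a5⟩
        · omega
        · rcases hc'.2 t with b | ⟨_, _, b3, b4, b5⟩
          · omega
          · rw [ht] at a3 a4 a5 b5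
            have i1 := ih _ a3 (by omega)
            have i2 := ih _ a4 (by omega)
            rcases a5 with ⟨a6, a7⟩ | ⟨a6, a7⟩ <;> rcases b5 with ⟨b6, b7⟩ | ⟨b6, b7⟩
            · rw [a7, b7]
            · exact absurd a6 b6
            · exact absurd b6 a6
            · rw [a7, b7, i1, i2]
      · have e1 : v i = v (i - 1) + v (i - 2) := by
          by_contra hne
          exact ht (hc.1 i hge hi hne)
        have e2 : v' i = v' (i - 1) + v' (i - 2) := by
          by_contra hne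
          exact ht (hc'.1 i hge hi hne)
        rw [e1, e2, ih (i - 1) (by omega) (by omega), ih (i - 2) (by omega) (by omega)]

/-- the finite set of triples -/
def X3 (N : ℕ) : Finset (ℕ × ℕ × ℕ) := Finset.range N ×ˢ (Finset.range N ×ˢ Finset.range N)

theorem Chain.exists_code {M : ℕ} {v : ℕ → ℕ} (h : Chain M v) {N s : ℕ} (hMN : M ≤ N)
    (hN : 0 < N) (hs : (D2 M v).card ≤ s) :
    ∃ w : Fin s → ℕ × ℕ × ℕ, (∀ t, w t ∈ X3 N) ∧ Code M v s w := by
  classical
  have hch : ∀ i, ∃ p : ℕ × ℕ, 2 ≤ i → i < M → (p.1 < i ∧ p.2 < i ∧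
      ((p.1 = p.2 ∧ v i = 1) ∨ (p.1 ≠ p.2 ∧ v i = v p.1 + v p.2))) := by
    intro i
    by_cases hi : 2 ≤ i ∧ i < M
    · rcases h.step i hi.1 hi.2 with h1 | ⟨j, k, hjk, hk, hv⟩
      · exact ⟨(0, 0), fun _ _ => ⟨by simp; omega, by simp; omega, Or.inl ⟨rfl, h1⟩⟩⟩
      · exact ⟨(j, k), fun _ _ => ⟨by simp; omega, hk, Or.inr ⟨by simp; omega, hv⟩⟩⟩
    · exact ⟨(0, 0), fun a b => absurd ⟨a, b⟩ hi⟩
  choose p hp using hch
  set D := D2 M v with hD
  refine ⟨fun t => if ht : (t : ℕ) < D.card then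
      ((D.equivFin.symm ⟨t, ht⟩ : ℕ), p (D.equivFin.symm ⟨t, ht⟩)) else (0, 0, 0), ?_, ?_, ?_⟩
  · intro t
    by_cases ht : (t : ℕ) < D.card
    · simp only [dif_pos ht]
      have hmem := (D.equivFin.symm ⟨t, ht⟩).2
      set i : ℕ := (D.equivFin.symm ⟨t, ht⟩ : ℕ) with hi
      rw [hD] at hmem
      simp only [D2, Finset.mem_filter, Finset.mem_range] at hmem
      obtain ⟨a1, a2, _⟩ := hp i hmem.2.1 hmem.1
      simp only [X3, Finset.mem_product, Finset.mem_range]
      omega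
    · simp only [dif_neg ht]
      simp only [X3, Finset.mem_product, Finset.mem_range]
      exact ⟨hN, hN, hN⟩
  · intro i h2 hiM hne
    have hmem : i ∈ D := by
      rw [hD]
      simp only [D2, Finset.mem_filter, Finset.mem_range]
      exact ⟨hiM, h2, hne⟩
    have hlt : ((D.equivFin ⟨i, hmem⟩ : Fin D.card) : ℕ) < D.card := (D.equivFin ⟨i, hmem⟩).2
    refine ⟨⟨(D.equivFin ⟨i, hmem⟩ : Fin D.card), lt_of_lt_of_le hlt hs⟩, ?_⟩
    simp only [dif_pos hlt]
    simp
  · intro t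
    by_cases ht : (t : ℕ) < D.card
    · right
      simp only [dif_pos ht]
      have hmem := (D.equivFin.symm ⟨t, ht⟩).2
      set i : ℕ := (D.equivFin.symm ⟨t, ht⟩ : ℕ) with hi
      rw [hD] at hmem
      simp only [D2, Finset.mem_filter, Finset.mem_range] at hmem
      obtain ⟨a1, a2, a3⟩ := hp i hmem.2.1 hmem.1
      exact ⟨hmem.2.1, hmem.1, a1, a2, a3⟩
    · left
      simp only [dif_neg ht]

theorem count (K : Finset ℕ) (N s : ℕ) (hN : 0 < N)
    (hK : ∀ k ∈ K, ∃ M, M ≤ N ∧ 3 ≤ M ∧ ∃ v, Chain M v ∧ v (M - 1) = k ∧ (D2 M v).card ≤ s) :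
    K.card ≤ (N + 1) * (N ^ 3) ^ s := by
  classical
  have hch : ∀ k, ∃ q : ℕ × (Fin s → ℕ × ℕ × ℕ), k ∈ K → (q.1 ≤ N ∧ (∀ t, q.2 t ∈ X3 N) ∧
      3 ≤ q.1 ∧ ∃ v, Chain q.1 v ∧ v (q.1 - 1) = k ∧ Code q.1 v s q.2) := by
    intro k
    by_cases hk : k ∈ K
    · obtain ⟨M, hM, h3, v, hv, hvk, hs⟩ := hK k hk
      obtain ⟨w, hw, hc⟩ := hv.exists_code hM hN hs
      exact ⟨(M, w), fun _ => ⟨hM, hw, h3, v, hv, hvk, hc⟩⟩
    · exact ⟨(0, fun _ => (0, 0, 0)), fun h => absurd h hk⟩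
  choose q hq using hch
  have hcard : K.card ≤ (Finset.range (N + 1) ×ˢ
      Fintype.piFinset (fun _ : Fin s => X3 N)).card := by
    apply Finset.card_le_card_of_injOn q
    · intro k hk
      obtain ⟨a, b, _⟩ := hq k (by simpa using hk)
      simp only [Finset.coe_product, Set.mem_prod, Finset.mem_coe, Finset.mem_range,
        Fintype.mem_piFinset]
      exact ⟨by omega, b⟩
    · intro k hk k' hk' heq
      obtain ⟨_, _, h3, v, hv, hvk, hc⟩ := hq k (by simpa using hk)
      obtain ⟨_, _, h3', v', hv', hvk', hc'⟩ := hq k' (by simpa using hk')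
      rw [← heq] at hv' hvk' hc'
      have := Code.unique hv.v0 hv.v1 hv'.v0 hv'.v1 hc hc' ((q k).1 - 1) (by omega)
      rw [← hvk, ← hvk', this]
  have hX : (X3 N).card = N ^ 3 := by
    simp [X3]; ring
  rw [Finset.card_product, Finset.card_range, Fintype.card_piFinset_const, hX] at hcard
  simpa using hcard

end Pool.Agent.H560Elem
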