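import Mathlib

namespace Pool.Agent.H560Elem

/-- `IsElementary n x`: the sequence `x 0, …, x (n-1)` (indices shifted by one) is a member of
`E_n`: it is nondecreasing, its terms are positive, its first two terms are `1`, and every term
greater than `1` is the sum of two terms at different indices. -/
structure IsElementary (n : ℕ) (x : Fin n → ℕ) : Prop where
  two_le : 2 ≤ n
  mono : Monotone x
  pos : ∀ i, 0 < x i
  start : ∀ i : Fin n, (i : ℕ) < 2 → x i = 1
  sum : ∀ i, 1 < x i → ∃ j k, j ≠ k ∧ x i = x j + x k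

/-- `e k`: the least `n` such that some member of `E_n` has a term equal to `k`. -/
noncomputable def e (k : ℕ) : ℕ :=
  sInf {n | ∃ x : Fin n → ℕ, IsElementary n x ∧ ∃ i, x i = k}

/-- unordered version -/
def Sys (N : ℕ) (v : ℕ → ℕ) : Prop :=
  v 0 = 1 ∧ v 1 = 1 ∧ 2 ≤ N ∧
    ∀ i < N, v i = 1 ∨ ∃ j < i, ∃ k < i, j ≠ k ∧ v i = v j + v k

theorem Sys.pos {N : ℕ} {v : ℕ → ℕ} (h : Sys N v) : ∀ i < N, 0 < v i := by
  intro i
  induction i using Nat.strong_induction_on with
  | _ i ih =>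
    intro hi
    rcases h.2.2.2 i hi with h1 | ⟨j, hj, k, hk, hjk, hv⟩
    · omega
    · have := ih j hj (by omega)
      omega

theorem Sys.exists_elementary {N : ℕ} {v : ℕ → ℕ} (h : Sys N v) {i : ℕ} (hi : i < N) :
    ∃ x : Fin N → ℕ, IsElementary N x ∧ ∃ i', x i' = v i := by
  classical
  set f : Fin N → ℕ := fun i => v i with hf
  set σ := Tuple.sort f with hσ
  have hmono : Monotone (f ∘ σ) := Tuple.monotone_sort f
  refine ⟨f ∘ σ, ⟨h.2.2.1, hmono, fun j => h.pos _ (σ j).2, ?_, ?_⟩, ?_⟩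
  · intro j hj
    by_contra hne
    have hpos : 0 < (f ∘ σ) j := h.pos _ (σ j).2
    have hgt : 1 < (f ∘ σ) j := by omega
    have key : ∀ p : Fin N, (f ∘ σ) p = 1 → p < j := by
      intro p hp
      by_contra hle
      have := hmono (not_lt.mp hle)
      omega
    have h2 : 2 ≤ N := h.2.2.1
    have e0 : (f ∘ σ) (σ.symm ⟨0, by omega⟩) = 1 := by
      simp [hf, h.1]
    have e1 : (f ∘ σ) (σ.symm ⟨1, by omega⟩) = 1 := by
      simp [hf, h.2.1]
    have k0 := key _ e0
    have k1 := key _ e1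
    have : σ.symm ⟨0, by omega⟩ = σ.symm ⟨1, by omega⟩ := by
      apply Fin.ext
      have := Fin.lt_def.mp k0
      have := Fin.lt_def.mp k1
      omega
    have := σ.symm.injective this
    simp at this
  · intro j hj
    rcases h.2.2.2 (σ j) (σ j).2 with h1 | ⟨a, ha, b, hb, hab, hv⟩
    · simp only [Function.comp_apply, hf] at hj
      omega
    · have haN : a < N := lt_trans ha (σ j).2
      have hbN : b < N := lt_trans hb (σ j).2
      refine ⟨σ.symm ⟨a, haN⟩, σ.symm ⟨b, hbN⟩, ?_, ?_⟩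
      · intro hh
        have := σ.symm.injective hh
        simp at this
        exact hab this
      · simp [hf, hv]
  · exact ⟨σ.symm ⟨i, hi⟩, by simp [hf]⟩

theorem Sys.e_le {N : ℕ} {v : ℕ → ℕ} (h : Sys N v) {i : ℕ} (hi : i < N) : e (v i) ≤ N :=
  Nat.sInf_le (h.exists_elementary hi)

theorem Sys.extend {N : ℕ} {v : ℕ → ℕ} (h : Sys N v) {c : ℕ}
    (hc : c = 1 ∨ ∃ j < N, ∃ k < N, j ≠ k ∧ c = v j + v k) :
    Sys (N + 1) (Function.update v N c) := by
  have h2 := h.2.2.1
  refine ⟨?_, ?_, by omega, ?_⟩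
  · rw [Function.update_of_ne (by omega)]; exact h.1
  · rw [Function.update_of_ne (by omega)]; exact h.2.1
  · intro i hi
    rcases Nat.lt_or_ge i N with hlt | hge
    · rw [Function.update_of_ne (by omega)]
      rcases h.2.2.2 i hlt with h1 | ⟨j, hj, k, hk, hjk, hv⟩
      · exact Or.inl h1
      · refine Or.inr ⟨j, hj, k, hk, hjk, ?_⟩
        rw [Function.update_of_ne (by omega), Function.update_of_ne (by omega)]
        exact hv
    · have : i = N := by omega
      subst this
      rw [Function.update_self]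
      rcases hc with h1 | ⟨j, hj, k, hk, hjk, hv⟩
      · exact Or.inl h1
      · refine Or.inr ⟨j, hj, k, hk, hjk, ?_⟩
        rw [Function.update_of_ne (by omega), Function.update_of_ne (by omega)]
        exact hv

/-- state: a table of the numbers `1, …, T` together with one further term `B`. -/
def Q (T N B : ℕ) : Prop :=
  ∃ v, Sys N v ∧ (∀ i, 1 ≤ i → i ≤ T → v i = i) ∧ ∃ b, T < b ∧ b < N ∧ v b = B

/-- state: a table of the numbers `1, …, T` together with two further terms `A, B`. -/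
def P (T N A B : ℕ) : Prop :=
  ∃ v, Sys N v ∧ (∀ i, 1 ≤ i → i ≤ T → v i = i) ∧
    ∃ a b, T < a ∧ a < N ∧ T < b ∧ b < N ∧ a ≠ b ∧ v a = A ∧ v b = B

theorem Q.base {T c : ℕ} (hc : 1 ≤ c) (hcT : c ≤ T) : Q T (T + 2) c := by
  refine ⟨fun i => if i = 0 then 1 else if i ≤ T then i else c, ⟨?_, ?_, by omega, ?_⟩, ?_,
    T + 1, by omega, by omega, ?_⟩
  · simp
  · simp; omega
  · intro i hi
    by_cases h0 : i = 0
    · left; simp [h0]
    by_cases h1 : i ≤ T
    · by_cases h2 : i = 1
      · left; simp [h2]; omega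
      · right
        refine ⟨0, by omega, i - 1, by omega, by omega, ?_⟩
        have h3 : i - 1 ≠ 0 := by omega
        have h4 : i - 1 ≤ T := by omega
        simp [h0, h1, h3, h4]
        omega
    · by_cases h2 : c = 1
      · left; simp [h0, h1, h2]
      · right
        refine ⟨0, by omega, c - 1, by omega, by omega, ?_⟩
        have h3 : c - 1 ≠ 0 := by omega
        have h4 : c - 1 ≤ T := by omega
        simp only [h0, h1, h3, h4, if_true, if_false]
        omega
  · intro i h1 h2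
    have : i ≠ 0 := by omega
    simp [this, h2]
  · simp

theorem Q.start {T N B c : ℕ} (h : Q T N B) (hc : c ≤ T) : P T (N + 1) B (B + c) := by
  obtain ⟨v, hv, ht, b, hTb, hbN, hb⟩ := h
  have hs : Sys (N + 1) (Function.update v N (B + c)) := by
    apply hv.extend
    rcases Nat.eq_zero_or_pos c with h0 | h0
    · subst h0
      rcases hv.2.2.2 b hbN with h1 | ⟨j, hj, k, hk, hjk, hvv⟩
      · left; omega
      · right; exact ⟨j, by omega, k, by omega, hjk, by omega⟩
    · right
      refine ⟨b, hbN, c, by omega, by omega, ?_⟩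
      rw [hb, ht c h0 hc]
  refine ⟨_, hs, ?_, b, N, hTb, by omega, by omega, by omega, by omega, ?_, ?_⟩
  · intro i h1 h2
    rw [Function.update_of_ne (by omega)]
    exact ht i h1 h2
  · rw [Function.update_of_ne (by omega)]; exact hb
  · rw [Function.update_self]

theorem P.step {T N A B : ℕ} (h : P T N A B) : P T (N + 1) B (A + B) := by
  obtain ⟨v, hv, ht, a, b, hTa, haN, hTb, hbN, hab, hA, hB⟩ := h
  have hs : Sys (N + 1) (Function.update v N (A + B)) := by
    apply hv.extend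
    right
    exact ⟨a, haN, b, hbN, hab, by rw [hA, hB]⟩
  refine ⟨_, hs, ?_, b, N, hTb, by omega, by omega, by omega, by omega, ?_, ?_⟩
  · intro i h1 h2
    rw [Function.update_of_ne (by omega)]
    exact ht i h1 h2
  · rw [Function.update_of_ne (by omega)]; exact hB
  · rw [Function.update_self]

theorem P.toQ {T N A B : ℕ} (h : P T N A B) : Q T N B := by
  obtain ⟨v, hv, ht, a, b, hTa, haN, hTb, hbN, hab, hA, hB⟩ := h
  exact ⟨v, hv, ht, b, hTb, hbN, hB⟩

theorem Q.run {T N B c : ℕ} (h : Q T N B) (hc : c ≤ T) (s : ℕ) :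
    P T (N + 1 + s) (Nat.fib (s + 1) * B + Nat.fib s * c)
      (Nat.fib (s + 2) * B + Nat.fib (s + 1) * c) := by
  induction s with
  | zero => simpa using h.start hc
  | succ s ih =>
    have := ih.step
    have e1 : Nat.fib (s + 1 + 2) = Nat.fib (s + 1) + Nat.fib (s + 2) := Nat.fib_add_two
    have e2 : Nat.fib (s + 1 + 1) = Nat.fib s + Nat.fib (s + 1) := Nat.fib_add_two
    have e3 : Nat.fib (s + 2) = Nat.fib s + Nat.fib (s + 1) := Nat.fib_add_two
    have e4 : Nat.fib (s + 1) * B + Nat.fib s * c + (Nat.fib (s + 2) * B + Nat.fib (s + 1) * c)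
        = Nat.fib (s + 1 + 2) * B + Nat.fib (s + 1 + 1) * c := by
      rw [e1, e2]; ring
    rw [e4] at this
    exact this

theorem Q.block {T N B c : ℕ} (h : Q T N B) (hc : c ≤ T) (r : ℕ) :
    Q T (N + (r + 1)) (Nat.fib (r + 2) * B + Nat.fib (r + 1) * c) := by
  have := (h.run hc r).toQ
  rwa [show N + 1 + r = N + (r + 1) by ring] at this

theorem exists_Q (r : ℕ) (hr : 1 ≤ r) (k : ℕ) (hk : 1 ≤ k) :
    ∃ J, Nat.fib (r + 2) ^ J ≤ k ∧
      Q (Nat.fib (r + 1) * Nat.fib (r + 2)) (Nat.fib (r + 1) * Nat.fib (r + 2) + 2 + (r + 1) * J)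
        k := by
  induction k using Nat.strong_induction_on with
  | _ k ih =>
    set g := Nat.fib (r + 2) with hg
    set h := Nat.fib (r + 1) with hh
    have hhpos : 1 ≤ h := Nat.fib_pos.mpr (by omega)
    have hg2 : 2 ≤ g := by
      have h3 : Nat.fib 3 ≤ Nat.fib (r + 2) := Nat.fib_mono (by omega)
      have h4 : Nat.fib 3 = 2 := rfl
      rw [hg]
      omega
    rcases Nat.lt_or_ge (h * g) k with hlt | hge
    · have hcop : Nat.Coprime h g := Nat.fib_coprime_fib_succ (r + 1)
      -- find c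
      have hc : ∃ c < g, h * c ≡ k [MOD g] := by
        have hu := Nat.chineseRemainder hcop 0 k
        obtain ⟨z, hz1, hz2⟩ := hu
        have hdvd : h ∣ z := (Nat.modEq_zero_iff_dvd).mp hz1
        obtain ⟨q, rfl⟩ := hdvd
        refine ⟨q % g, Nat.mod_lt _ (by omega), ?_⟩
        exact ((Nat.mod_modEq q g).mul_left h).trans hz2
      obtain ⟨c, hcg, hcm⟩ := hc
      have hle : h * c ≤ k := by
        have : h * c ≤ h * g := Nat.mul_le_mul_left _ hcg.le
        omega
      have hdvd : g ∣ k - h * c := (Nat.modEq_iff_dvd' hle).mp hcm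
      obtain ⟨B, hB⟩ := hdvd
      have hkB : k = g * B + h * c := by omega
      have hBpos : 1 ≤ B := by
        rcases Nat.eq_zero_or_pos B with h0 | h0
        · subst h0
          have : h * c ≤ h * g := Nat.mul_le_mul_left _ hcg.le
          omega
        · exact h0
      have hBk : B < k := by nlinarith
      obtain ⟨J, hJ, hQ⟩ := ih B hBk hBpos
      have hcT : c ≤ h * g := by nlinarith
      refine ⟨J + 1, ?_, ?_⟩
      · calc g ^ (J + 1) = g ^ J * g := pow_succ _ _
          _ ≤ B * g := Nat.mul_le_mul_right _ hJ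
          _ ≤ k := by rw [hkB]; nlinarith
      · have := hQ.block hcT r
        rw [← hg, ← hh, ← hkB] at this
        convert this using 1
        ring
    · exact ⟨0, by simpa using hk, by simpa using Q.base hk hge⟩

theorem fib_mul_le (r J : ℕ) : Nat.fib (r * J + 2) ≤ Nat.fib (r + 2) ^ J := by
  induction J with
  | zero => simp
  | succ J ih =>
    have h1 : Nat.fib (r * (J + 1) + 2) =
        Nat.fib (r * J + 1) * Nat.fib r + Nat.fib (r * J + 2) * Nat.fib (r + 1) := by
      have := Nat.fib_add (r * J + 1) r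
      rw [show r * J + 1 + r + 1 = r * (J + 1) + 2 by ring] at this
      exact this
    have h2 : Nat.fib (r * J + 1) ≤ Nat.fib (r * J + 2) := Nat.fib_le_fib_succ
    have h3 : Nat.fib (r + 2) = Nat.fib r + Nat.fib (r + 1) := Nat.fib_add_two
    calc Nat.fib (r * (J + 1) + 2)
        ≤ Nat.fib (r * J + 2) * Nat.fib r + Nat.fib (r * J + 2) * Nat.fib (r + 1) := by
          rw [h1]; gcongr
      _ = Nat.fib (r * J + 2) * Nat.fib (r + 2) := by rw [h3]; ring
      _ ≤ Nat.fib (r + 2) ^ J * Nat.fib (r + 2) := Nat.mul_le_mul_right _ ih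
      _ = Nat.fib (r + 2) ^ (J + 1) := (pow_succ _ _).symm

theorem Q.e_le {T N B : ℕ} (h : Q T N B) : e B ≤ N := by
  obtain ⟨v, hv, ht, b, hTb, hbN, hb⟩ := h
  rw [← hb]
  exact hv.e_le hbN

theorem Q.nonempty {T N B : ℕ} (h : Q T N B) :
    {n | ∃ x : Fin n → ℕ, IsElementary n x ∧ ∃ i, x i = B}.Nonempty := by
  obtain ⟨v, hv, ht, b, hTb, hbN, hb⟩ := h
  rw [← hb]
  exact ⟨N, hv.exists_elementary hbN⟩

/-- the explicit upper bound -/
theorem e_le_explicit (r : ℕ) (hr : 1 ≤ r) (n k : ℕ) (hk : 1 ≤ k) (hkn : k < Nat.fib (n + 1)) :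
    e k ≤ n + n / r + Nat.fib (r + 1) * Nat.fib (r + 2) := by
  obtain ⟨J, hJ, hQ⟩ := exists_Q r hr k hk
  have h1 := hQ.e_le
  have h2 : Nat.fib (r * J + 2) < Nat.fib (n + 1) :=
    lt_of_le_of_lt ((fib_mul_le r J).trans hJ) hkn
  have h3 : r * J + 2 < n + 1 := by
    by_contra hcon
    have := Nat.fib_mono (not_lt.mp hcon)
    omega
  have h4 : J ≤ n / r := by
    rw [Nat.le_div_iff_mul_le (by omega)]
    nlinarith
  have h5 : (r + 1) * J = r * J + J := by ring
  omega

theorem set_nonempty (k : ℕ) (hk : 1 ≤ k) :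
    {n | ∃ x : Fin n → ℕ, IsElementary n x ∧ ∃ i, x i = k}.Nonempty := by
  obtain ⟨J, hJ, hQ⟩ := exists_Q 1 le_rfl k hk
  exact hQ.nonempty

theorem fib_le_two_pow (m : ℕ) : Nat.fib m ≤ 2 ^ m := by
  induction m using Nat.strong_induction_on with
  | _ m ih =>
    match m with
    | 0 => simp
    | 1 => simp
    | m + 2 =>
      rw [Nat.fib_add_two]
      have h1 := ih m (by omega)
      have h2 := ih (m + 1) (by omega)
      have : 2 ^ (m + 2) = 2 ^ m + 2 ^ (m + 1) + 2 ^ m := by ring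
      omega

theorem e_le_real (n : ℕ) (hn : 16 ≤ n) (k : ℕ) (hk : 1 ≤ k) (hkn : k < Nat.fib (n + 1)) :
    (e k : ℝ) ≤ n + 22 * n / Real.log n := by
  set r := Nat.log 16 n with hr
  have hr1 : 1 ≤ r := Nat.log_pos (by norm_num) hn
  have h1 := e_le_explicit r hr1 n k hk hkn
  have hnR : (16 : ℝ) ≤ n := by exact_mod_cast hn
  have hn0 : (0 : ℝ) < n := by linarith
  have hlogpos : 0 < Real.log n := Real.log_pos (by linarith)
  -- n / r
  have h2 : Real.log n ≤ 2 * r * Real.log 16 := by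
    have h3 : n < 16 ^ (r + 1) := Nat.lt_pow_succ_log_self (by norm_num) n
    have h4 : (n : ℝ) ≤ (16 : ℝ) ^ (r + 1) := by exact_mod_cast h3.le
    have h5 := Real.log_le_log hn0 h4
    rw [Real.log_pow] at h5
    have h6 : 0 < Real.log 16 := Real.log_pos (by norm_num)
    have h7 : ((r + 1 : ℕ) : ℝ) ≤ 2 * r := by
      push_cast
      have : (1 : ℝ) ≤ r := by exact_mod_cast hr1
      linarith
    calc Real.log n ≤ ((r + 1 : ℕ) : ℝ) * Real.log 16 := h5
      _ ≤ 2 * r * Real.log 16 := by gcongr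
  have hlog16 : Real.log 16 ≤ 3 := by
    have : Real.log 16 = 4 * Real.log 2 := by
      rw [show (16 : ℝ) = 2 ^ 4 by norm_num, Real.log_pow]; norm_num
    rw [this]
    have := Real.log_two_lt_d9
    linarith
  have h8 : ((n / r : ℕ) : ℝ) ≤ 6 * n / Real.log n := by
    have hrpos : (0 : ℝ) < r := by exact_mod_cast hr1
    calc ((n / r : ℕ) : ℝ) ≤ (n : ℝ) / r := Nat.cast_div_le
      _ ≤ 6 * n / Real.log n := by
        rw [div_le_div_iff₀ hrpos hlogpos]
        have : Real.log n ≤ 6 * r := by nlinarith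
        nlinarith
  -- T
  have h9 : ((Nat.fib (r + 1) * Nat.fib (r + 2) : ℕ) : ℝ) ≤ 16 * n / Real.log n := by
    have a1 : Nat.fib (r + 1) * Nat.fib (r + 2) ≤ 8 * 4 ^ r := by
      calc Nat.fib (r + 1) * Nat.fib (r + 2) ≤ 2 ^ (r + 1) * 2 ^ (r + 2) :=
            Nat.mul_le_mul (fib_le_two_pow _) (fib_le_two_pow _)
        _ = 8 * 4 ^ r := by
            rw [show (4 : ℕ) = 2 ^ 2 by norm_num, ← pow_mul]; ring
    have a2 : 16 ^ r ≤ n := Nat.pow_log_le_self 16 (by omega)
    have a3 : ((4 : ℝ) ^ r) ^ 2 ≤ n := by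
      rw [← pow_mul, mul_comm r 2, pow_mul]
      norm_num
      exact_mod_cast a2
    have a4 : (4 : ℝ) ^ r ≤ Real.sqrt n := by
      apply Real.le_sqrt_of_sq_le a3
    have a5 : Real.log n ≤ 2 * Real.sqrt n := by
      have b1 : Real.log (Real.sqrt n) ≤ Real.sqrt n - 1 :=
        Real.log_le_sub_one_of_pos (Real.sqrt_pos.mpr hn0)
      have b2 : Real.log (Real.sqrt n) = Real.log n / 2 := Real.log_sqrt hn0.le
      linarith
    have a6 : Real.sqrt n * Real.sqrt n = n := Real.mul_self_sqrt hn0.le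
    have a7 : 0 ≤ Real.sqrt n := Real.sqrt_nonneg _
    rw [le_div_iff₀ hlogpos]
    calc ((Nat.fib (r + 1) * Nat.fib (r + 2) : ℕ) : ℝ) * Real.log n
        ≤ ((8 * 4 ^ r : ℕ) : ℝ) * Real.log n := by
          gcongr
      _ = 8 * (4 : ℝ) ^ r * Real.log n := by push_cast; ring
      _ ≤ 8 * Real.sqrt n * (2 * Real.sqrt n) := by gcongr
      _ = 16 * n := by nlinarith
  have h10 : (e k : ℝ) ≤ ((n + n / r + Nat.fib (r + 1) * Nat.fib (r + 2) : ℕ) : ℝ) := by
    exact_mod_cast h1
  rw [Nat.cast_add, Nat.cast_add] at h10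
  have h11 : 22 * (n : ℝ) / Real.log n = 6 * n / Real.log n + 16 * n / Real.log n := by ring
  rw [h11]
  linarith

end Pool.Agent.H560Elem
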